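import Pool.Agent.Helper50.VD.St

/-!
# MP_22dedb_an, module F5: confinement of box solutions

`φ(0) ≥ J₁/c` forces a positive amount of impulse near the origin, hence a lower bound `W₀` for the
level `W`; the rectangles under the points of `A` force decay of `φ_A`, so `A` is confined.
-/

open MeasureTheory Set Filter Topology
open scoped ENNReal

noncomputable section

namespace VD.M_F5

/-- integral of the height -/
theorem intOn_snd {S : Set (ℝ × ℝ)} (hS : MeasurableSet S) (hs : S ⊆ Om) (hn : nu S < ∞) :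
    IntegrableOn (fun y : ℝ × ℝ => y.2) S ∧ ∫ y in S, y.2 = (nu S).toReal := by
  have hpos : ∀ᵐ y : ℝ × ℝ ∂(volume.restrict S), 0 ≤ y.2 := by
    filter_upwards [ae_restrict_mem hS] with y hy
    exact le_of_lt (hs hy)
  have hm : AEStronglyMeasurable (fun y : ℝ × ℝ => y.2) (volume.restrict S) := by fun_prop
  constructor
  · refine ⟨hm, ?_⟩
    rw [hasFiniteIntegral_iff_ofReal hpos, ← nu_apply hS]
    exact hn
  · rw [integral_eq_lintegral_of_nonneg_ae hpos hm, ← nu_apply hS]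

theorem far_le (hK1 : StK1) {S : Set (ℝ × ℝ)} (hS : MeasurableSet S) (hs : S ⊆ Om) (hn : nu S < ∞)
    {z : ℝ × ℝ} (hz : 0 ≤ z.2) (hi : IntegrableOn (N z) S) {K : ℝ} (hK : 0 < K)
    (h : ∀ y ∈ S, K ≤ (z.1 - y.1) ^ 2 + (z.2 - y.2) ^ 2) :
    ∫ y in S, N z y ≤ (nu S).toReal / (Real.pi * K) := by
  obtain ⟨h1, h2⟩ := intOn_snd hS hs hn
  rw [← h2, ← integral_div]
  apply setIntegral_mono_on hi (h1.div_const _) hS
  intro y hy
  have hy2 : 0 < y.2 := hs hy
  have hne : z ≠ y := by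
    rintro rfl
    have := h z hy
    simp at this
    linarith
  refine ((hK1 z y hz hy2 hne).2.2.1).trans ?_
  have := h y hy
  have hp := Real.pi_pos
  gcongr

theorem near_ge (hK1 : StK1) {S : Set (ℝ × ℝ)} (hS : MeasurableSet S) (hs : S ⊆ Om) (hn : nu S < ∞)
    {z : ℝ × ℝ} (hz : 0 ≤ z.2) (hi : IntegrableOn (N z) S) {K : ℝ}
    (h : ∀ y ∈ S, (z.1 - y.1) ^ 2 + (z.2 + y.2) ^ 2 ≤ K) :
    (nu S).toReal / (Real.pi * K) ≤ ∫ y in S, N z y := by
  obtain ⟨h1, h2⟩ := intOn_snd hS hs hn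
  rw [← h2, ← integral_div]
  apply setIntegral_mono_on_ae (h1.div_const _) hi hS
  have hae : ∀ᵐ y : ℝ × ℝ, y ≠ z := by
    rw [ae_iff]
    simp
  filter_upwards [hae] with y hyz hy
  have hy2 : 0 < y.2 := hs hy
  refine le_trans ?_ ((hK1 z y hz hy2 (Ne.symm hyz)).2.2.2.1)
  have := h y hy
  have hp := Real.pi_pos
  have h4 : 0 < (z.1 - y.1) ^ 2 + (z.2 + y.2) ^ 2 := by positivity
  gcongr

/-- the rectangle below a point -/
theorem rect_le {A : Set (ℝ × ℝ)} (hA : DM A) (hn : nu A < ∞) {z : ℝ × ℝ} (hz : z ∈ A) :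
    |z.1| * z.2 ^ 2 ≤ (nu A).toReal := by
  have hz2 : 0 < z.2 := hA.sub hz
  set T : Set (ℝ × ℝ) := Icc (-|z.1|) |z.1| ×ˢ Ioc 0 z.2 with hT
  have hTm : MeasurableSet T := measurableSet_Icc.prod measurableSet_Ioc
  have hTA : T ⊆ A := by
    intro w hw
    simp only [hT, mem_prod, mem_Icc, mem_Ioc] at hw
    exact hA.mono z hz w hw.2.1 (abs_le.mpr hw.1) hw.2.2
  have hTO : T ⊆ Om := hTA.trans hA.sub
  have hTn : nu T < ∞ := lt_of_le_of_lt (measure_mono hTA) hn
  have h2 := (intOn_snd hTm hTO hTn).2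
  have h3 : (nu T).toReal ≤ (nu A).toReal := ENNReal.toReal_mono hn.ne (measure_mono hTA)
  refine le_trans (le_of_eq ?_) h3
  rw [← h2]
  have h4 : ∫ y in T, y.2 = (∫ x in Icc (-|z.1|) |z.1|, (1 : ℝ)) * ∫ y in Ioc 0 z.2, y := by
    rw [hT, Measure.volume_eq_prod]
    have := setIntegral_prod_mul (μ := (volume : Measure ℝ)) (ν := (volume : Measure ℝ))
      (fun _ : ℝ => (1 : ℝ)) (fun y : ℝ => y) (Icc (-|z.1|) |z.1|) (Ioc 0 z.2)
    simpa using this
  rw [h4, ← intervalIntegral.integral_of_le hz2.le, integral_id]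
  simp
  ring_nf

/-- the square of half side `r` about `z` -/
def sq (z : ℝ × ℝ) (r : ℝ) : Set (ℝ × ℝ) := Icc (z.1 - r) (z.1 + r) ×ˢ Icc (z.2 - r) (z.2 + r)

theorem measurableSet_sq (z : ℝ × ℝ) (r : ℝ) : MeasurableSet (sq z r) :=
  measurableSet_Icc.prod measurableSet_Icc

theorem decay (hK1 : StK1) (hK2 : StK2) {A : Set (ℝ × ℝ)} (hA : DM A) {z : ℝ × ℝ} (hz : 0 ≤ z.2)
    {r η : ℝ} (hr : 0 < r) (hη : 0 ≤ η) (hv : volume (A ∩ sq z r) ≤ ENNReal.ofReal η) :
    phi A z ≤ 4 * Real.sqrt η + (nu A).toReal / (Real.pi * r ^ 2) := by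
  have hi := (hK2 A hA.meas hA.sub hA.vol z hz).1
  have hm1 : MeasurableSet (A ∩ sq z r) := hA.meas.inter (measurableSet_sq z r)
  have hm2 : MeasurableSet (A \ sq z r) := hA.meas.diff (measurableSet_sq z r)
  have hsplit : phi A z = phi (A ∩ sq z r) z + ∫ y in A \ sq z r, N z y := by
    unfold phi
    rw [← setIntegral_union (disjoint_sdiff_right.mono_left inter_subset_right) hm2
      (hi.mono_set inter_subset_left) (hi.mono_set sdiff_subset), inter_union_sdiff]
  have h1 : phi (A ∩ sq z r) z ≤ 4 * Real.sqrt η := by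
    have hvt : volume (A ∩ sq z r) < ∞ := lt_of_le_of_lt hv ENNReal.ofReal_lt_top
    refine ((hK2 _ hm1 (inter_subset_left.trans hA.sub) hvt z hz).2.2.1).trans ?_
    have : (volume (A ∩ sq z r)).toReal ≤ η := by
      have := ENNReal.toReal_mono ENNReal.ofReal_ne_top hv
      rwa [ENNReal.toReal_ofReal hη] at this
    gcongr
  have hnd : nu (A \ sq z r) ≤ nu A := measure_mono sdiff_subset
  have h2 : ∫ y in A \ sq z r, N z y ≤ (nu (A \ sq z r)).toReal / (Real.pi * r ^ 2) := by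
    apply far_le hK1 hm2 (sdiff_subset.trans hA.sub) (lt_of_le_of_lt hnd hA.nu) hz
      (hi.mono_set sdiff_subset) (by positivity)
    intro y hy
    have hy2 := hy.2
    simp only [sq, mem_prod, mem_Icc, not_and_or, not_le] at hy2
    rcases hy2 with (h | h) | (h | h)
    · nlinarith [sq_nonneg (z.2 - y.2)]
    · nlinarith [sq_nonneg (z.2 - y.2)]
    · nlinarith [sq_nonneg (z.1 - y.1)]
    · nlinarith [sq_nonneg (z.1 - y.1)]
  have h3 : (nu (A \ sq z r)).toReal / (Real.pi * r ^ 2) ≤ (nu A).toReal / (Real.pi * r ^ 2) := by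
    have hp := Real.pi_pos
    have := ENNReal.toReal_mono hA.nu.ne hnd
    gcongr
  rw [hsplit]
  linarith

theorem vol_wide {A : Set (ℝ × ℝ)} (hA : DM A) {z : ℝ × ℝ} {r δ R : ℝ} (hr : 0 < r)
    (hδ : 0 < δ) (hR : 0 < R) (h1 : R ≤ |z.1|) (h2 : 2 * r ≤ R)
    (h3 : 2 * (nu A).toReal ≤ R * δ ^ 2) :
    volume (A ∩ sq z r) ≤ ENNReal.ofReal (2 * r * δ) := by
  have hsub : A ∩ sq z r ⊆ Icc (z.1 - r) (z.1 + r) ×ˢ Ioc 0 δ := by
    intro y hy
    obtain ⟨hyA, hyq⟩ := hy
    simp only [sq, mem_prod, mem_Icc] at hyq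
    have hy2 : 0 < y.2 := hA.sub hyA
    refine ⟨⟨hyq.1.1, hyq.1.2⟩, hy2, ?_⟩
    have h4 := rect_le hA hA.nu hyA
    have h5 : |z.1| - |y.1| ≤ r := by
      refine (abs_sub_abs_le_abs_sub _ _).trans ?_
      rw [abs_le]
      constructor <;> linarith [hyq.1.1, hyq.1.2]
    have h6 : R / 2 ≤ |y.1| := by linarith
    by_contra hc
    push Not at hc
    have h7 : δ ^ 2 < y.2 ^ 2 := by gcongr
    have h8 : R / 2 * δ ^ 2 < |y.1| * y.2 ^ 2 := by
      calc R / 2 * δ ^ 2 < R / 2 * y.2 ^ 2 := by gcongr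
        _ ≤ |y.1| * y.2 ^ 2 := by gcongr
    linarith
  refine (measure_mono hsub).trans ?_
  rw [Measure.volume_eq_prod, Measure.prod_prod, Real.volume_Icc, Real.volume_Ioc,
    ← ENNReal.ofReal_mul (by linarith)]
  apply le_of_eq
  congr 1
  ring

theorem vol_tall {A : Set (ℝ × ℝ)} (hA : DM A) {z : ℝ × ℝ} {r a R : ℝ}
    (ha : 0 < a) (hR : 0 < R) (h1 : R ≤ z.2) (h2 : 2 * r ≤ R)
    (h3 : 4 * (nu A).toReal ≤ R ^ 2 * a) :
    volume (A ∩ sq z r) ≤ ENNReal.ofReal (4 * r * a) := by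
  have hsub : A ∩ sq z r ⊆ Icc (-a) a ×ˢ Icc (z.2 - r) (z.2 + r) := by
    intro y hy
    obtain ⟨hyA, hyq⟩ := hy
    simp only [sq, mem_prod, mem_Icc] at hyq
    have hy2 : 0 < y.2 := hA.sub hyA
    refine ⟨?_, hyq.2.1, hyq.2.2⟩
    have h4 := rect_le hA hA.nu hyA
    have h6 : R / 2 ≤ y.2 := by linarith [hyq.2.1]
    rw [mem_Icc, ← abs_le]
    by_contra hc
    push Not at hc
    have h8 : a * (R / 2) ^ 2 < |y.1| * y.2 ^ 2 := by
      calc a * (R / 2) ^ 2 < |y.1| * (R / 2) ^ 2 := by gcongr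
        _ ≤ |y.1| * y.2 ^ 2 := by gcongr
    nlinarith
  refine (measure_mono hsub).trans ?_
  rw [Measure.volume_eq_prod, Measure.prod_prod, Real.volume_Icc, Real.volume_Icc,
    ← ENNReal.ofReal_mul (by linarith)]
  apply le_of_eq
  congr 1
  ring

/-- a positive amount of impulse near the origin -/
theorem near_origin (hK1 : StK1) (hK2 : StK2) (hK6 : StK6) (hK7 : StK7) (hK9 : StK9)
    {A : Set (ℝ × ℝ)} (hA : DM A) (hpos : 0 < volume A) {J r ρ : ℝ} (hr : 0 < r)
    (hρ : 0 < ρ) (hJ : J ≤ BG A A) :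
    J ≤ (6 * r + (nu (A ∩ Box ρ)).toReal / (Real.pi * r ^ 2) +
      (nu A).toReal / (Real.pi * ρ ^ 2)) * (nu A).toReal := by
  have hi := (hK2 A hA.meas hA.sub hA.vol (0, 0) le_rfl).1
  have hcen : ∀ z : ℝ × ℝ, 0 ≤ z.2 → phi A z ≤ phi A (0, 0) := by
    intro z hz
    have h1 : phi A (z.1, z.2) ≤ phi A (z.1, 0) := by
      rcases eq_or_lt_of_le hz with h | h
      · rw [← h]
      · exact (hK7 A hA hpos z.1 0 z.2 le_rfl h).le
    have h2 : phi A (z.1, 0) ≤ phi A (0, 0) := by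
      rcases eq_or_ne z.1 0 with h | h
      · rw [h]
      · refine (hK6 A hA hpos 0 z.1 0 le_rfl ?_).le
        simpa using h
    exact h1.trans h2
  have hBG : BG A A ≤ phi A (0, 0) * (nu A).toReal := by
    obtain ⟨hint, -, -, -⟩ := hK9.1 A A hA.meas hA.meas hA.sub hA.sub hA.vol hA.vol hA.nu hA.nu
    obtain ⟨h1, h2⟩ := intOn_snd hA.meas hA.sub hA.nu
    rw [← h2, ← integral_const_mul]
    unfold BG
    apply setIntegral_mono_on hint (h1.const_mul _) hA.meas
    intro z hz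
    have hz2 : 0 < z.2 := hA.sub hz
    rw [mul_comm]
    gcongr
    exact hcen z hz2.le
  have hphi : phi A (0, 0) ≤ 6 * r + (nu (A ∩ Box ρ)).toReal / (Real.pi * r ^ 2) +
      (nu A).toReal / (Real.pi * ρ ^ 2) := by
    have hp := Real.pi_pos
    have hB := measurableSet_Box
    have hm1 : MeasurableSet (A ∩ Box r) := hA.meas.inter (hB r)
    have hm2 : MeasurableSet ((A \ Box r) ∩ Box ρ) := (hA.meas.diff (hB r)).inter (hB ρ)
    have hm3 : MeasurableSet ((A \ Box r) \ Box ρ) := (hA.meas.diff (hB r)).diff (hB ρ)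
    have hs2 : (A \ Box r) ∩ Box ρ ⊆ A := inter_subset_left.trans sdiff_subset
    have hs3 : (A \ Box r) \ Box ρ ⊆ A := sdiff_subset.trans sdiff_subset
    have hsplit : phi A (0, 0) = phi (A ∩ Box r) (0, 0) +
        ((∫ y in (A \ Box r) ∩ Box ρ, N (0, 0) y) + ∫ y in (A \ Box r) \ Box ρ, N (0, 0) y) := by
      unfold phi
      rw [← setIntegral_union (disjoint_sdiff_right.mono_left inter_subset_right) hm3
        (hi.mono_set hs2) (hi.mono_set hs3), inter_union_sdiff,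
        ← setIntegral_union (disjoint_sdiff_right.mono_left inter_subset_right)
        (hA.meas.diff (hB r))
        (hi.mono_set inter_subset_left) (hi.mono_set sdiff_subset), inter_union_sdiff]
    have h1 : phi (A ∩ Box r) (0, 0) ≤ 6 * r := by
      have hvle : volume (A ∩ Box r) ≤ volume (Box r) := measure_mono inter_subset_right
      have hvt : volume (A ∩ Box r) < ∞ := lt_of_le_of_lt hvle (volume_Box_lt_top r)
      refine ((hK2 _ hm1 (inter_subset_left.trans hA.sub) hvt (0, 0) le_rfl).2.2.1).trans ?_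
      have h3 : (volume (A ∩ Box r)).toReal ≤ (3 / 2 * r) ^ 2 := by
        have := ENNReal.toReal_mono (volume_Box_lt_top r).ne hvle
        rw [volume_Box r hr.le, ENNReal.toReal_ofReal (by positivity)] at this
        nlinarith
      have h4 : Real.sqrt (volume (A ∩ Box r)).toReal ≤ 3 / 2 * r := by
        rw [Real.sqrt_le_left (by positivity)]
        exact h3
      linarith
    have hout : ∀ (n : ℝ), 0 < n → ∀ y ∈ A, y ∉ Box n →
        n ^ 2 ≤ ((0, 0) : ℝ × ℝ).1 ^ 2 * 0 + (((0, 0) : ℝ × ℝ).1 - y.1) ^ 2 +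
          (((0, 0) : ℝ × ℝ).2 - y.2) ^ 2 := by
      intro n hn y hy hyn
      have hy2 : 0 < y.2 := hA.sub hy
      simp only [Box, mem_ofPred_eq, not_and_or, not_le, not_lt] at hyn
      simp only [zero_sub, neg_sq]
      rcases hyn with h | h | h
      · have : n ^ 2 ≤ y.1 ^ 2 := by
          rw [← sq_abs y.1]
          gcongr
        nlinarith [sq_nonneg y.2]
      · linarith
      · nlinarith [sq_nonneg y.1]
    have h2 : (∫ y in (A \ Box r) ∩ Box ρ, N (0, 0) y) ≤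
        (nu (A ∩ Box ρ)).toReal / (Real.pi * r ^ 2) := by
      have hle : nu ((A \ Box r) ∩ Box ρ) ≤ nu (A ∩ Box ρ) :=
        measure_mono (inter_subset_inter_left _ sdiff_subset)
      have hlt : nu (A ∩ Box ρ) < ∞ := lt_of_le_of_lt (measure_mono inter_subset_left) hA.nu
      refine (far_le hK1 hm2 (hs2.trans hA.sub) (lt_of_le_of_lt hle hlt) le_rfl (hi.mono_set hs2)
        (K := r ^ 2) (by positivity) ?_).trans ?_
      · intro y hy
        have := hout r hr y hy.1.1 hy.1.2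
        linarith
      · have := ENNReal.toReal_mono hlt.ne hle
        gcongr
    have h3 : (∫ y in (A \ Box r) \ Box ρ, N (0, 0) y) ≤
        (nu A).toReal / (Real.pi * ρ ^ 2) := by
      have hle : nu ((A \ Box r) \ Box ρ) ≤ nu A := measure_mono hs3
      refine (far_le hK1 hm3 (hs3.trans hA.sub) (lt_of_le_of_lt hle hA.nu) le_rfl (hi.mono_set hs3)
        (K := ρ ^ 2) (by positivity) ?_).trans ?_
      · intro y hy
        have := hout ρ hρ y hy.1.1 hy.2
        linarith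
      · have := ENNReal.toReal_mono hA.nu.ne hle
        gcongr
    rw [hsplit]
    linarith
  have : phi A (0, 0) * (nu A).toReal ≤ (6 * r + (nu (A ∩ Box ρ)).toReal / (Real.pi * r ^ 2) +
      (nu A).toReal / (Real.pi * ρ ^ 2)) * (nu A).toReal := by
    gcongr
  linarith

end VD.M_F5

namespace VD

open M_F5 in
/-- confinement of box solutions -/
theorem mF5 (hK1 : StK1) (hK2 : StK2) (hK6 : StK6) (hK7 : StK7) (hK9 : StK9) : StF5 := by
  intro c J hc0 hct hJ
  have hp := Real.pi_gt_three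
  have hp0 := Real.pi_pos
  obtain ⟨k, hk⟩ : ∃ k : ℝ, k = c.toReal := ⟨_, rfl⟩
  have hk0 : 0 < k := by rw [hk]; exact ENNReal.toReal_pos hc0 hct
  obtain ⟨r, hr⟩ : ∃ r : ℝ, r = J / (24 * k) := ⟨_, rfl⟩
  have hr0 : 0 < r := by rw [hr]; positivity
  obtain ⟨ρ, hρ⟩ : ∃ ρ : ℝ, ρ = 1 + 4 * k ^ 2 / J := ⟨_, rfl⟩
  have hρ0 : 0 < ρ := by rw [hρ]; positivity
  obtain ⟨i1, hi1⟩ : ∃ i1 : ℝ, i1 = Real.pi * r ^ 2 * J / (2 * k) := ⟨_, rfl⟩
  have hi10 : 0 < i1 := by rw [hi1]; positivity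
  obtain ⟨K0, hK0⟩ : ∃ K0 : ℝ, K0 = 2 * (k + 1 + ρ) ^ 2 := ⟨_, rfl⟩
  have hK00 : 0 < K0 := by rw [hK0]; positivity
  obtain ⟨W0, hW0⟩ : ∃ W0 : ℝ, W0 = i1 / (Real.pi * K0) := ⟨_, rfl⟩
  have hW00 : 0 < W0 := by rw [hW0]; positivity
  obtain ⟨r2, hr2⟩ : ∃ r2 : ℝ, r2 = 1 + 4 * k / W0 := ⟨_, rfl⟩
  have hr20 : 0 < r2 := by rw [hr2]; positivity
  obtain ⟨η, hη⟩ : ∃ η : ℝ, η = (W0 / 16) ^ 2 := ⟨_, rfl⟩
  have hη0 : 0 < η := by rw [hη]; positivity
  obtain ⟨δ, hδ⟩ : ∃ δ : ℝ, δ = η / (2 * r2) := ⟨_, rfl⟩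
  have hδ0 : 0 < δ := by rw [hδ]; positivity
  obtain ⟨a, ha⟩ : ∃ a : ℝ, a = η / (4 * r2) := ⟨_, rfl⟩
  have ha0 : 0 < a := by rw [ha]; positivity
  obtain ⟨R, hR⟩ : ∃ R : ℝ, R = 1 + (k + 1) + 2 * r2 + 2 * k / δ ^ 2 + 4 * k / a := ⟨_, rfl⟩
  have hR0 : 0 < R := by rw [hR]; positivity
  have e1 : 0 < 2 * k / δ ^ 2 := by positivity
  have e2 : 0 < 4 * k / a := by positivity
  refine ⟨R, hR0, ?_⟩
  rintro n A W hRn ⟨hA, hAn, hW, hiff⟩ hnu hBG
  have hpos : 0 < volume A := by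
    rw [← nu_pos_iff hA.meas hA.sub, hnu]
    exact pos_iff_ne_zero.mpr hc0
  have hkA : (nu A).toReal = k := by rw [hnu, hk]
  -- impulse near the origin
  have h1 : i1 ≤ (nu (A ∩ Box ρ)).toReal := by
    have h := near_origin hK1 hK2 hK6 hK7 hK9 hA hpos hr0 hρ0 hBG
    rw [hkA] at h
    have h2 : k / (Real.pi * ρ ^ 2) ≤ J / (4 * k) := by
      rw [div_le_div_iff₀ (by positivity) (by positivity)]
      have h3 : 4 * k ^ 2 ≤ J * ρ := by
        rw [hρ]
        have : J * (1 + 4 * k ^ 2 / J) = J + 4 * k ^ 2 := by field_simp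
        linarith
      have h4 : ρ ≤ ρ ^ 2 := by
        have : 1 ≤ ρ := by
          rw [hρ]
          have : 0 ≤ 4 * k ^ 2 / J := by positivity
          linarith
        nlinarith
      have h5 : J * ρ ≤ J * (Real.pi * ρ ^ 2) := by
        have : ρ ≤ Real.pi * ρ ^ 2 := by nlinarith
        gcongr
      linarith
    have h3 : 6 * r = J / (4 * k) := by rw [hr]; field_simp; norm_num
    have h4 : J / k ≤ 6 * r + (nu (A ∩ Box ρ)).toReal / (Real.pi * r ^ 2) +
        k / (Real.pi * ρ ^ 2) := by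
      rw [div_le_iff₀ hk0]
      exact h
    have h5 : J / (2 * k) ≤ (nu (A ∩ Box ρ)).toReal / (Real.pi * r ^ 2) := by
      have : J / k = J / (4 * k) + J / (4 * k) + J / (2 * k) := by field_simp; norm_num
      linarith
    rw [le_div_iff₀ (by positivity)] at h5
    rw [hi1]
    calc Real.pi * r ^ 2 * J / (2 * k) = J / (2 * k) * (Real.pi * r ^ 2) := by ring
      _ ≤ _ := h5
  -- lower bound of the level
  have h2 : W0 ≤ W := by
    have hzn : ((k + 1, k + 1) : ℝ × ℝ) ∉ A := by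
      intro hz
      have := rect_le hA hA.nu hz
      rw [hkA] at this
      simp only [abs_of_pos (show (0 : ℝ) < k + 1 by linarith)] at this
      nlinarith [pow_pos hk0 3, pow_pos hk0 2]
    have hzb : ((k + 1, k + 1) : ℝ × ℝ) ∈ Box n := by
      have : k + 1 ≤ n := by linarith
      refine ⟨?_, ?_, this⟩
      · simp only [abs_of_pos (show (0 : ℝ) < k + 1 by linarith)]
        exact this
      · show (0 : ℝ) < k + 1
        linarith
    have h3 : phi A (k + 1, k + 1) ≤ W := by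
      by_contra hc
      push Not at hc
      exact hzn ((hiff _ hzb).mpr hc)
    have hz0 : (0 : ℝ) ≤ ((k + 1, k + 1) : ℝ × ℝ).2 := by
      show (0 : ℝ) ≤ k + 1
      linarith
    have hi := (hK2 A hA.meas hA.sub hA.vol (k + 1, k + 1) hz0).1
    have hmB := measurableSet_Box ρ
    have h4 : ∫ y in A ∩ Box ρ, N (k + 1, k + 1) y ≤ phi A (k + 1, k + 1) := by
      have hsp : phi A (k + 1, k + 1) = (∫ y in A ∩ Box ρ, N (k + 1, k + 1) y) +
          phi (A \ Box ρ) (k + 1, k + 1) := by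
        unfold phi
        rw [← setIntegral_union (disjoint_sdiff_right.mono_left inter_subset_right)
          (hA.meas.diff hmB) (hi.mono_set inter_subset_left) (hi.mono_set sdiff_subset),
          inter_union_sdiff]
      have := (hK2 (A \ Box ρ) (hA.meas.diff hmB) (sdiff_subset.trans hA.sub)
        (lt_of_le_of_lt (measure_mono sdiff_subset) hA.vol) (k + 1, k + 1) hz0).2.1
      linarith
    have h5 : (nu (A ∩ Box ρ)).toReal / (Real.pi * K0) ≤
        ∫ y in A ∩ Box ρ, N (k + 1, k + 1) y := by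
      apply near_ge hK1 (hA.meas.inter hmB) (inter_subset_left.trans hA.sub)
        (lt_of_le_of_lt (measure_mono inter_subset_left) hA.nu) hz0
        (hi.mono_set inter_subset_left)
      intro y hy
      obtain ⟨hb1, hb2, hb3⟩ := hy.2
      rw [abs_le] at hb1
      simp only
      rw [hK0]
      have g1 : (k + 1 - y.1) ^ 2 ≤ (k + 1 + ρ) ^ 2 := by
        apply sq_le_sq'
        · linarith [hb1.2]
        · linarith [hb1.1]
      have g2 : (k + 1 + y.2) ^ 2 ≤ (k + 1 + ρ) ^ 2 := by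
        apply sq_le_sq'
        · linarith
        · linarith
      linarith
    have h6 : W0 ≤ (nu (A ∩ Box ρ)).toReal / (Real.pi * K0) := by
      rw [hW0]
      gcongr
    linarith
  -- decay
  intro z hz
  have hz2 : 0 < z.2 := hA.sub hz
  have hWz : W < phi A z := (hiff z (hAn hz)).mp hz
  have hfin : volume (A ∩ sq z r2) ≤ ENNReal.ofReal η → False := by
    intro hv
    have h := decay hK1 hK2 hA hz2.le hr20 hη0.le hv
    have h3 : Real.sqrt η = W0 / 16 := by
      rw [hη]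
      exact Real.sqrt_sq (by positivity)
    have h4 : (nu A).toReal / (Real.pi * r2 ^ 2) ≤ W0 / 4 := by
      rw [hkA, div_le_div_iff₀ (by positivity) (by positivity)]
      have g1 : 4 * k ≤ W0 * r2 := by
        rw [hr2]
        have : W0 * (1 + 4 * k / W0) = W0 + 4 * k := by field_simp
        linarith
      have g2 : r2 ≤ Real.pi * r2 ^ 2 := by
        have : 1 ≤ r2 := by
          rw [hr2]
          have : 0 ≤ 4 * k / W0 := by positivity
          linarith
        nlinarith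
      have g3 : W0 * r2 ≤ W0 * (Real.pi * r2 ^ 2) := by gcongr
      linarith
    rw [h3] at h
    linarith
  refine ⟨?_, hz2, ?_⟩
  · by_contra hc
    push Not at hc
    apply hfin
    refine (vol_wide hA hr20 hδ0 hR0 hc.le (by linarith) ?_).trans (le_of_eq ?_)
    · rw [hkA]
      have : 2 * k / δ ^ 2 ≤ R := by linarith
      rwa [div_le_iff₀ (by positivity)] at this
    · congr 1
      rw [hδ]
      field_simp
  · by_contra hc
    push Not at hc
    apply hfin
    refine (vol_tall hA ha0 hR0 hc.le (by linarith) ?_).trans (le_of_eq ?_)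
    · rw [hkA]
      have g1 : 4 * k / a ≤ R := by linarith
      rw [div_le_iff₀ ha0] at g1
      have g2 : 1 ≤ R := by linarith
      nlinarith [mul_pos hR0 ha0]
    · congr 1
      rw [ha]
      field_simp

end VD
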