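import Pool.Agent.Helper50.VD.St

/-!
# MP_22dedb_an, module P4: a checked chain bounds `φ_B` on a part of the boundary
-/

open MeasureTheory Set Filter Topology
open scoped ENNReal

noncomputable section

namespace VD.M_P4

theorem inE_gE : ∀ (l : List (ℕ × ℕ × ℕ)) (x y : ℕ), inE x y l = true →
    gE ((x : ℝ), (y : ℝ)) l ≤ 1
  | [], _, _, _ => by simp [gE]
  | (dh, dx, c) :: l, x, y, h => by
    simp only [inE, Bool.and_eq_true, Nat.ble_eq] at h
    unfold gE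
    apply max_le _ (inE_gE l x y h.2)
    simp only [Nat.abs_cast]
    apply div_le_one_of_le₀ _ (Nat.cast_nonneg c)
    exact_mod_cast h.1

theorem outE_gE : ∀ (l : List (ℕ × ℕ × ℕ)) (x y : ℕ), (∀ e ∈ l, 0 < e.2.2) → outE x y l = true →
    1 ≤ gE ((x : ℝ), (y : ℝ)) l
  | [], _, _, _, h => by simp [outE] at h
  | (dh, dx, c) :: l, x, y, hl, h => by
    simp only [outE, Bool.or_eq_true, Nat.ble_eq] at h
    unfold gE
    simp only [Nat.abs_cast]
    rcases h with h | h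
    · apply le_max_of_le_left
      have hc : (0 : ℝ) < c := by exact_mod_cast hl _ List.mem_cons_self
      rw [le_div_iff₀ hc, one_mul]
      exact_mod_cast h
    · exact le_max_of_le_right
        (outE_gE l x y (fun e he => hl e (List.mem_cons_of_mem _ he)) h)

theorem Es_pos : ∀ e ∈ Es, 0 < e.2.2 := by decide

/-- `φ_B` is monotone in both coordinates -/
theorem phi_mono (hK6 : StK6) (hK7 : StK7) (hP0 : StP0) {z w : ℝ × ℝ} (h1 : 0 ≤ z.1)
    (h2 : 0 ≤ z.2) (h3 : z.1 ≤ w.1) (h4 : z.2 ≤ w.2) : phi (PB 1) w ≤ phi (PB 1) z := by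
  obtain ⟨hdm, -, hv, -, -⟩ := hP0.2.2.2.2.2.2 1 one_pos
  have a1 : phi (PB 1) (w.1, w.2) ≤ phi (PB 1) (w.1, z.2) := by
    rcases h4.eq_or_lt with h | h
    · rw [h]
    · exact (hK7 _ hdm hv w.1 z.2 w.2 h2 h).le
  have a2 : phi (PB 1) (w.1, z.2) ≤ phi (PB 1) (z.1, z.2) := by
    rcases h3.eq_or_lt with h | h
    · rw [h]
    · refine (hK6 _ hdm hv z.1 w.1 z.2 h2 ?_).le
      rwa [abs_of_nonneg h1, abs_of_nonneg (h1.trans h3)]
  exact a1.trans a2

theorem up_val (hP1 : StP1) (hP3 : StP3) {x y : ℕ} (h : upOk x y = true) :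
    phi (PB 1) ((x : ℝ), (y : ℝ)) ≤ 1006 := by
  simp only [upOk, Bool.and_eq_true, Nat.ble_eq, decide_eq_true_eq] at h
  obtain ⟨⟨⟨h1, h2⟩, h3⟩, h4⟩ := h
  have a1 := hP1 x y h1 h2
  have a2 := hP3.1 _ h3
  have a3 := hP3.2.1
  have a4 : ((apL (TT x y) : ℝ) + (erL (TT x y) : ℝ)) ≤
      4 * (226375608064910012 - 8192) * (y : ℝ) * 1006 := by
    exact_mod_cast h4
  rw [abs_le] at a2
  have hy : (1 : ℝ) ≤ y := by exact_mod_cast h1
  have a5 : 2 ^ 56 * (4 * Real.pi * y * phi (PB 1) ((x : ℝ), (y : ℝ))) ≤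
      2 ^ 56 * (4 * Real.pi * y * 1006) := by
    rw [a1]
    have a6 : (4 * y * 1006) * (226375608064910012 - 8192 : ℝ) ≤
        (4 * y * 1006) * (2 ^ 56 * Real.pi) := by
      gcongr
    linarith [a2.1]
  have hp := Real.pi_pos
  by_contra hc
  push Not at hc
  have a7 : 4 * Real.pi * y * 1006 < 4 * Real.pi * y * phi (PB 1) ((x : ℝ), (y : ℝ)) := by
    gcongr
  have a8 := mul_lt_mul_of_pos_left a7 (show (0 : ℝ) < 2 ^ 56 by norm_num)
  linarith

theorem lo_val (hP1 : StP1) (hP3 : StP3) {x y : ℕ} (h : loOk x y = true) :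
    994 ≤ phi (PB 1) ((x : ℝ), (y : ℝ)) := by
  simp only [loOk, Bool.and_eq_true, Nat.ble_eq, decide_eq_true_eq] at h
  obtain ⟨⟨⟨h1, h2⟩, h3⟩, h4⟩ := h
  have a1 := hP1 x y h1 h2
  have a2 := hP3.1 _ h3
  have a3 := hP3.2.2
  have a4 : 4 * (226375608064910012 + 8192) * (y : ℝ) * 994 ≤
      ((apL (TT x y) : ℝ) - (erL (TT x y) : ℝ)) := by
    exact_mod_cast h4
  rw [abs_le] at a2
  have hy : (1 : ℝ) ≤ y := by exact_mod_cast h1
  have a5 : 2 ^ 56 * (4 * Real.pi * y * 994) ≤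
      2 ^ 56 * (4 * Real.pi * y * phi (PB 1) ((x : ℝ), (y : ℝ))) := by
    rw [a1]
    have a6 : (4 * y * 994) * (2 ^ 56 * Real.pi) ≤
        (4 * y * 994) * (226375608064910012 + 8192 : ℝ) := by
      gcongr
    linarith [a2.2]
  have hp := Real.pi_pos
  by_contra hc
  push Not at hc
  have a7 : 4 * Real.pi * y * phi (PB 1) ((x : ℝ), (y : ℝ)) < 4 * Real.pi * y * 994 := by
    gcongr
  have a8 := mul_lt_mul_of_pos_left a7 (show (0 : ℝ) < 2 ^ 56 by norm_num)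
  linarith

theorem up_base (hK6 : StK6) (hK7 : StK7) (hP0 : StP0) (hP1 : StP1) (hP3 : StP3) {x y x' : ℕ}
    (h : upOk x y = true) (h' : inE x' y Es = true) {z : ℝ × ℝ} (h1 : (x : ℝ) ≤ z.1)
    (h2 : z.1 < x') (h3 : 0 ≤ z.2) (h4 : g z = 1) : phi (PB 1) z ≤ 1006 := by
  have hx : (0 : ℝ) ≤ x := Nat.cast_nonneg x
  have hy : (y : ℝ) ≤ z.2 := by
    by_contra hc
    push Not at hc
    have a1 := hP0.2.2.2.2.1 z ((x' : ℝ), (y : ℝ)) h3 (by
      rw [abs_of_nonneg (hx.trans h1), abs_of_nonneg (by positivity)]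
      exact h2) hc.le
    have a2 : g ((x' : ℝ), (y : ℝ)) ≤ 1 := inE_gE Es x' y h'
    linarith
  exact (phi_mono hK6 hK7 hP0 (z := ((x : ℝ), (y : ℝ))) hx (Nat.cast_nonneg y) h1 hy).trans
    (up_val hP1 hP3 h)

theorem lo_base (hK6 : StK6) (hK7 : StK7) (hP0 : StP0) (hP1 : StP1) (hP3 : StP3) {x y y' : ℕ}
    (h : loOk x y = true) (h' : outE x y' Es = true) {z : ℝ × ℝ} (h1 : 0 ≤ z.1)
    (h2 : (y' : ℝ) < z.2) (h3 : z.2 ≤ y) (h4 : g z = 1) : 994 ≤ phi (PB 1) z := by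
  have hy' : (0 : ℝ) ≤ y' := Nat.cast_nonneg y'
  have hx : z.1 ≤ x := by
    by_contra hc
    push Not at hc
    have a1 := hP0.2.2.2.2.1 ((x : ℝ), (y' : ℝ)) z hy' (by
      rw [abs_of_nonneg h1, abs_of_nonneg (by positivity)]
      exact hc) h2.le
    have a2 : 1 ≤ g ((x : ℝ), (y' : ℝ)) := outE_gE Es x y' Es_pos h'
    linarith
  exact (lo_val hP1 hP3 h).trans
    (phi_mono hK6 hK7 hP0 (z := z) (w := ((x : ℝ), (y : ℝ))) h1 (hy'.trans h2.le) hx h3)

end VD.M_P4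

namespace VD

open M_P4 in
/-- list induction: checked chains give bounds 994 <= phi_B <= 1006 -/
theorem mP4 (hK6 : StK6) (hK7 : StK7) (hP0 : StP0) (hP1 : StP1) (hP3 : StP3) : StP4 := by
  constructor
  · intro l
    induction l with
    | nil =>
      rintro ⟨x, y⟩ ⟨x', y'⟩ h z h1 h2 h3 h4
      simp only [List.cons_append, List.nil_append, upC, Bool.and_eq_true] at h
      exact up_base hK6 hK7 hP0 hP1 hP3 h.1.1 h.1.2 h1 h2 h3 h4
    | cons c l ih =>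
      rintro ⟨x, y⟩ b h z h1 h2 h3 h4
      obtain ⟨x', y'⟩ := c
      simp only [List.cons_append, upC, Bool.and_eq_true] at h
      by_cases hc : z.1 < x'
      · exact up_base hK6 hK7 hP0 hP1 hP3 h.1.1 h.1.2 h1 hc h3 h4
      · push Not at hc
        exact ih (x', y') b h.2 z hc h2 h3 h4
  · intro l
    induction l with
    | nil =>
      rintro ⟨x, y⟩ ⟨x', y'⟩ h z h1 h2 h3 h4
      simp only [List.cons_append, List.nil_append, loC, Bool.and_eq_true] at h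
      exact lo_base hK6 hK7 hP0 hP1 hP3 h.1.1 h.1.2 h1 h2 h3 h4
    | cons c l ih =>
      rintro ⟨x, y⟩ b h z h1 h2 h3 h4
      obtain ⟨x', y'⟩ := c
      simp only [List.cons_append, loC, Bool.and_eq_true] at h
      by_cases hc : (y' : ℝ) < z.2
      · exact lo_base hK6 hK7 hP0 hP1 hP3 h.1.1 h.1.2 h1 hc h3 h4
      · push Not at hc
        exact ih (x', y') b h.2 z h1 h2 hc h4

end VD
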