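import Pool.Agent.Helper50.VD.St

/-!
# MP_22dedb_an, module R2: row integrals of the kernel
-/

open MeasureTheory Set Filter Topology
open scoped ENNReal

noncomputable section

namespace VD.M_R2

/-- antiderivative of `log (ξ² + p²) - log (ξ² + m²)` -/
def E (m p ξ : ℝ) : ℝ :=
  ξ * (Real.log (ξ ^ 2 + p ^ 2) - Real.log (ξ ^ 2 + m ^ 2)) + 2 * p * Real.arctan (ξ / p) -
    2 * m * Real.arctan (ξ / m)

theorem arc_deriv {p : ℝ} (hp : 0 < p) (ξ : ℝ) :
    HasDerivAt (fun ξ : ℝ => 2 * p * Real.arctan (ξ / p)) (2 * p ^ 2 / (ξ ^ 2 + p ^ 2)) ξ := by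
  have := (((hasDerivAt_id ξ).div_const p).arctan).const_mul (2 * p)
  refine this.congr_deriv ?_
  simp only [id_eq]
  have h1 : 0 < ξ ^ 2 + p ^ 2 := by positivity
  have h2 : 0 < 1 + (ξ / p) ^ 2 := by positivity
  field_simp
  ring

theorem log_deriv {p : ℝ} {ξ : ℝ} (h : 0 < ξ ^ 2 + p ^ 2) :
    HasDerivAt (fun ξ : ℝ => Real.log (ξ ^ 2 + p ^ 2)) (2 * ξ / (ξ ^ 2 + p ^ 2)) ξ := by
  have : HasDerivAt (fun ξ : ℝ => ξ ^ 2 + p ^ 2) (2 * ξ) ξ := by
    simpa using (hasDerivAt_pow 2 ξ).add_const (p ^ 2)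
  exact this.log h.ne'

theorem E_deriv {m p ξ : ℝ} (hm : 0 ≤ m) (hp : 0 < p) (hξ : 0 < ξ) :
    HasDerivAt (E m p) (Real.log (ξ ^ 2 + p ^ 2) - Real.log (ξ ^ 2 + m ^ 2)) ξ := by
  have g1 : 0 < ξ ^ 2 + p ^ 2 := by positivity
  have g2 : 0 < ξ ^ 2 + m ^ 2 := by positivity
  have h1 := log_deriv g1
  have h2 := log_deriv g2
  have h3 := arc_deriv hp ξ
  have h4 : HasDerivAt (fun ξ : ℝ => 2 * m * Real.arctan (ξ / m)) (2 * m ^ 2 / (ξ ^ 2 + m ^ 2)) ξ := by
    rcases hm.eq_or_lt with rfl | hm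
    · simpa using hasDerivAt_const ξ (0 : ℝ)
    · exact arc_deriv hm ξ
  have h5 := (((hasDerivAt_id ξ).mul (h1.sub h2)).add h3).sub h4
  have h6 : HasDerivAt (E m p) (1 * (Real.log (ξ ^ 2 + p ^ 2) - Real.log (ξ ^ 2 + m ^ 2)) +
      ξ * (2 * ξ / (ξ ^ 2 + p ^ 2) - 2 * ξ / (ξ ^ 2 + m ^ 2)) + 2 * p ^ 2 / (ξ ^ 2 + p ^ 2) -
      2 * m ^ 2 / (ξ ^ 2 + m ^ 2)) ξ := h5
  convert h6 using 1
  field_simp
  ring

theorem E_cont {m p : ℝ} (hm : 0 ≤ m) (hp : 0 < p) : Continuous (E m p) := by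
  have h1 : Continuous (fun ξ : ℝ => Real.log (ξ ^ 2 + p ^ 2)) := by
    apply Continuous.log (by fun_prop)
    intro x
    positivity
  have h2 : Continuous (fun ξ : ℝ => Real.arctan (ξ / p)) := by fun_prop
  have h3 : Continuous (fun ξ : ℝ => Real.arctan (ξ / m)) := by fun_prop
  rcases hm.eq_or_lt with rfl | hm
  · have h4 : E 0 p = fun ξ : ℝ => ξ * Real.log (ξ ^ 2 + p ^ 2) - 2 * (ξ * Real.log ξ) +
        2 * p * Real.arctan (ξ / p) := by
      funext ξ
      unfold E
      have : Real.log (ξ ^ 2 + 0 ^ 2) = 2 * Real.log ξ := by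
        rw [zero_pow two_ne_zero, add_zero, Real.log_pow]
        norm_num
      rw [this]
      ring
    rw [h4]
    have := Real.continuous_mul_log
    fun_prop
  · have h4 : Continuous (fun ξ : ℝ => Real.log (ξ ^ 2 + m ^ 2)) := by
      apply Continuous.log (by fun_prop)
      intro x
      positivity
    unfold E
    fun_prop

theorem E_lim {m p : ℝ} (hm : 0 ≤ m) (hp : 0 < p) (hmp : m ≤ p) :
    Tendsto (E m p) atTop (𝓝 (Real.pi * (p - m))) := by
  have harc : ∀ q : ℝ, 0 ≤ q →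
      Tendsto (fun ξ : ℝ => 2 * q * Real.arctan (ξ / q)) atTop (𝓝 (Real.pi * q)) := by
    intro q hq
    rcases hq.eq_or_lt with rfl | hq
    · simp
    · have h1 : Tendsto (fun ξ : ℝ => Real.arctan (ξ / q)) atTop (𝓝 (Real.pi / 2)) :=
        (tendsto_nhds_of_tendsto_nhdsWithin Real.tendsto_arctan_atTop).comp
          (tendsto_id.atTop_div_const hq)
      have h2 := h1.const_mul (2 * q)
      have h3 : 2 * q * (Real.pi / 2) = Real.pi * q := by ring
      rwa [h3] at h2
  have h1 : Tendsto (fun ξ : ℝ => ξ * (Real.log (ξ ^ 2 + p ^ 2) - Real.log (ξ ^ 2 + m ^ 2))) atTop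
      (𝓝 0) := by
    have h2 : Tendsto (fun ξ : ℝ => (p ^ 2 - m ^ 2) / ξ) atTop (𝓝 0) :=
      tendsto_id.const_div_atTop _
    refine tendsto_of_tendsto_of_tendsto_of_le_of_le' tendsto_const_nhds h2 ?_ ?_
    · filter_upwards [eventually_gt_atTop 0] with ξ hξ
      have : Real.log (ξ ^ 2 + m ^ 2) ≤ Real.log (ξ ^ 2 + p ^ 2) := by
        apply Real.log_le_log (by positivity)
        gcongr
      have : 0 ≤ Real.log (ξ ^ 2 + p ^ 2) - Real.log (ξ ^ 2 + m ^ 2) := by linarith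
      positivity
    · filter_upwards [eventually_gt_atTop 0] with ξ hξ
      have g2 : 0 < ξ ^ 2 + m ^ 2 := by positivity
      have h3 : Real.log (ξ ^ 2 + p ^ 2) - Real.log (ξ ^ 2 + m ^ 2) ≤ (p ^ 2 - m ^ 2) / ξ ^ 2 := by
        rw [← Real.log_div (by positivity) (by positivity)]
        refine (Real.log_le_sub_one_of_pos (by positivity)).trans ?_
        have h4 : (ξ ^ 2 + p ^ 2) / (ξ ^ 2 + m ^ 2) - 1 = (p ^ 2 - m ^ 2) / (ξ ^ 2 + m ^ 2) := by
          field_simp
          ring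
        rw [h4]
        have h5 : 0 ≤ p ^ 2 - m ^ 2 := by nlinarith
        apply div_le_div_of_nonneg_left h5 (by positivity)
        nlinarith [sq_nonneg m]
      calc ξ * (Real.log (ξ ^ 2 + p ^ 2) - Real.log (ξ ^ 2 + m ^ 2)) ≤
          ξ * ((p ^ 2 - m ^ 2) / ξ ^ 2) := by gcongr
        _ = (p ^ 2 - m ^ 2) / ξ := by field_simp
  have h2 := (h1.add (harc p hp.le)).sub (harc m hm)
  have h3 : (0 : ℝ) + Real.pi * p - Real.pi * m = Real.pi * (p - m) := by ring
  rw [h3] at h2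
  exact h2

theorem log_half {m p a : ℝ} (hm : 0 ≤ m) (hp : 0 < p) (hmp : m ≤ p) (ha : 0 ≤ a) :
    IntegrableOn (fun ξ : ℝ => Real.log (ξ ^ 2 + p ^ 2) - Real.log (ξ ^ 2 + m ^ 2)) (Ioi a) ∧
    ∫ ξ in Ioi a, (Real.log (ξ ^ 2 + p ^ 2) - Real.log (ξ ^ 2 + m ^ 2)) =
      Real.pi * (p - m) - E m p a := by
  have h1 : ∀ x ∈ Ioi a, HasDerivAt (E m p)
      (Real.log (x ^ 2 + p ^ 2) - Real.log (x ^ 2 + m ^ 2)) x := by
    intro x hx
    exact E_deriv hm hp (lt_of_le_of_lt ha hx)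
  have h2 : ∀ x ∈ Ioi a, 0 ≤ Real.log (x ^ 2 + p ^ 2) - Real.log (x ^ 2 + m ^ 2) := by
    intro x hx
    have hx0 : 0 < x := lt_of_le_of_lt ha hx
    have : Real.log (x ^ 2 + m ^ 2) ≤ Real.log (x ^ 2 + p ^ 2) := by
      apply Real.log_le_log (by positivity)
      gcongr
    linarith
  have h3 := (E_cont hm hp).continuousWithinAt (s := Ici a) (x := a)
  exact ⟨integrableOn_Ioi_deriv_of_nonneg h3 h1 h2 (E_lim hm hp hmp),
    integral_Ioi_of_hasDerivAt_of_nonneg h3 h1 h2 (E_lim hm hp hmp)⟩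

theorem N_form {S s ξ : ℝ} (hS : 0 < S) (hs : 0 < s) (hξ : ξ ≠ 0 ∨ s ≠ S) :
    N (0, S) (ξ, s) = 1 / (4 * Real.pi * S) *
      (Real.log (ξ ^ 2 + (s + S) ^ 2) - Real.log (ξ ^ 2 + |s - S| ^ 2)) := by
  unfold N G
  rw [if_neg hS.ne']
  simp only [zero_sub, neg_sq]
  have g1 : 0 < ξ ^ 2 + (s + S) ^ 2 := by positivity
  have g2 : 0 < ξ ^ 2 + (s - S) ^ 2 := by
    rcases hξ with h | h
    · positivity
    · have : 0 < (s - S) ^ 2 := by
        have := sub_ne_zero.mpr h
        positivity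
      positivity
  rw [sq_abs, ← Real.log_div g1.ne' g2.ne']
  have e1 : (S + s) ^ 2 = (s + S) ^ 2 := by ring
  have e2 : (S - s) ^ 2 = (s - S) ^ 2 := by ring
  rw [e1, e2]
  field_simp

theorem N_even (S s ξ : ℝ) : N (0, S) (-ξ, s) = N (0, S) (ξ, s) := by
  unfold N G
  simp

theorem N_half {S s a : ℝ} (hS : 0 < S) (hs : 0 < s) (ha : 0 ≤ a) :
    IntegrableOn (fun ξ => N (0, S) (ξ, s)) (Ioi a) ∧
    ∫ ξ in Ioi a, N (0, S) (ξ, s) = 1 / (4 * Real.pi * S) *
      (Real.pi * (s + S - |s - S|) - E |s - S| (s + S) a) := by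
  have h0 : |s - S| ≤ s + S := by
    rw [abs_le]
    constructor <;> linarith
  obtain ⟨h1, h2⟩ := log_half (abs_nonneg (s - S)) (show 0 < s + S by positivity) h0 ha
  have h3 : EqOn (fun ξ => 1 / (4 * Real.pi * S) *
      (Real.log (ξ ^ 2 + (s + S) ^ 2) - Real.log (ξ ^ 2 + |s - S| ^ 2)))
      (fun ξ => N (0, S) (ξ, s)) (Ioi a) := by
    intro ξ hξ
    exact (N_form hS hs (Or.inl (lt_of_le_of_lt ha hξ).ne')).symm
  constructor
  · exact IntegrableOn.congr_fun (h1.const_mul _) h3 measurableSet_Ioi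
  · rw [← h2, ← integral_const_mul]
    exact (setIntegral_congr_fun measurableSet_Ioi h3).symm

theorem N_half0 {s a : ℝ} (hs : 0 < s) :
    IntegrableOn (fun ξ => N (0, 0) (ξ, s)) (Ioi a) ∧
    ∫ ξ in Ioi a, N (0, 0) (ξ, s) = 1 / 2 - Real.arctan (a / s) / Real.pi := by
  have hp := Real.pi_pos
  have h1 : ∀ x ∈ Ici a, HasDerivAt (fun ξ : ℝ => Real.arctan (ξ / s) / Real.pi)
      (N (0, 0) (x, s)) x := by
    intro x hx
    have := (((hasDerivAt_id x).div_const s).arctan).div_const Real.pi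
    refine this.congr_deriv ?_
    unfold N
    simp only [id_eq, if_true, zero_sub, neg_sq]
    have h1 : 0 < x ^ 2 + s ^ 2 := by positivity
    have h2 : 0 < 1 + (x / s) ^ 2 := by positivity
    field_simp
    ring
  have h2 : ∀ x ∈ Ioi a, 0 ≤ N (0, 0) (x, s) := by
    intro x hx
    unfold N
    simp only [if_true, zero_sub, neg_sq]
    positivity
  have h3 : Tendsto (fun ξ : ℝ => Real.arctan (ξ / s) / Real.pi) atTop (𝓝 (1 / 2)) := by
    have h1 : Tendsto (fun ξ : ℝ => Real.arctan (ξ / s)) atTop (𝓝 (Real.pi / 2)) :=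
      (tendsto_nhds_of_tendsto_nhdsWithin Real.tendsto_arctan_atTop).comp
        (tendsto_id.atTop_div_const hs)
    have h2 := h1.div_const Real.pi
    have h3 : Real.pi / 2 / Real.pi = 1 / 2 := by field_simp
    rwa [h3] at h2
  exact ⟨integrableOn_Ioi_deriv_of_nonneg' h1 h2 h3, integral_Ioi_of_hasDerivAt_of_nonneg' h1 h2 h3⟩

theorem flip {S s a : ℝ} (h : IntegrableOn (fun ξ => N (0, S) (ξ, s)) (Ioi a)) :
    IntegrableOn (fun ξ => N (0, S) (ξ, s)) (Iic (-a)) ∧
    ∫ ξ in Iic (-a), N (0, S) (ξ, s) = ∫ ξ in Ioi a, N (0, S) (ξ, s) := by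
  constructor
  · have h1 := (Measure.measurePreserving_neg (volume : Measure ℝ)).integrableOn_comp_preimage
      (Homeomorph.neg ℝ).measurableEmbedding (f := fun ξ => N (0, S) (ξ, s)) (s := Ioi a)
    have h2 : (fun ξ => N (0, S) (ξ, s)) ∘ Neg.neg = fun ξ => N (0, S) (ξ, s) := by
      funext ξ
      exact N_even S s ξ
    rw [h2] at h1
    have h3 : (Neg.neg ⁻¹' Ioi a : Set ℝ) = Iio (-a) := by
      ext x
      simp only [mem_preimage, mem_Ioi, mem_Iio]
      constructor <;> intro h <;> linarith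
    rw [h3] at h1
    rw [integrableOn_Iic_iff_integrableOn_Iio]
    exact h1.mpr h
  · have h1 := integral_comp_neg_Iic (-a) (fun ξ => N (0, S) (ξ, s))
    simp only [N_even, neg_neg] at h1
    exact h1

theorem arctan_tangent {x x0 : ℝ} (hx : 0 ≤ x) (hx0 : 0 ≤ x0) :
    Real.arctan x ≤ Real.arctan x0 + (x - x0) / (1 + x0 ^ 2) := by
  have hd : ∀ y : ℝ, HasDerivAt (fun y => Real.arctan x0 + (y - x0) / (1 + x0 ^ 2) - Real.arctan y)
      (1 / (1 + x0 ^ 2) - 1 / (1 + y ^ 2)) y := by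
    intro y
    have h1 := (((hasDerivAt_id y).sub_const x0).div_const (1 + x0 ^ 2)).const_add (Real.arctan x0)
    have h2 := h1.sub (Real.hasDerivAt_arctan y)
    exact h2
  have hdiff : Differentiable ℝ
      (fun y => Real.arctan x0 + (y - x0) / (1 + x0 ^ 2) - Real.arctan y) :=
    fun y => (hd y).differentiableAt
  rcases le_total x0 x with h | h
  · have h1 : MonotoneOn (fun y => Real.arctan x0 + (y - x0) / (1 + x0 ^ 2) - Real.arctan y)
        (Ici x0) := by
      apply monotoneOn_of_deriv_nonneg (convex_Ici x0) hdiff.continuous.continuousOn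
        hdiff.differentiableOn
      intro y hy
      rw [interior_Ici] at hy
      rw [(hd y).deriv, sub_nonneg]
      have : x0 < y := hy
      apply one_div_le_one_div_of_le (by positivity)
      nlinarith
    have h2 := h1 (mem_Ici.mpr le_rfl) (mem_Ici.mpr h) h
    simp only [sub_self, zero_div, add_zero] at h2
    linarith
  · have h1 : AntitoneOn (fun y => Real.arctan x0 + (y - x0) / (1 + x0 ^ 2) - Real.arctan y)
        (Icc 0 x0) := by
      apply antitoneOn_of_deriv_nonpos (convex_Icc 0 x0) hdiff.continuous.continuousOn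
        hdiff.differentiableOn
      intro y hy
      rw [interior_Icc] at hy
      rw [(hd y).deriv, sub_nonpos]
      apply one_div_le_one_div_of_le (by positivity)
      nlinarith [hy.1, hy.2]
    have h2 := h1 ⟨hx, h⟩ ⟨hx0, le_rfl⟩ h
    simp only [sub_self, zero_div, add_zero] at h2
    linarith

theorem arctan_chord {w : ℝ} (h0 : 0 ≤ w) (h1 : w ≤ 1) : Real.pi / 4 * w ≤ Real.arctan w := by
  have a1 := arctan_tangent (le_refl (0 : ℝ)) h0
  have a2 := arctan_tangent (zero_le_one (α := ℝ)) h0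
  rw [Real.arctan_zero] at a1
  rw [Real.arctan_one] at a2
  have a3 : (0 - w) / (1 + w ^ 2) * (1 - w) + (1 - w) / (1 + w ^ 2) * w = 0 := by
    field_simp
    ring
  nlinarith

/-- Jensen -/
theorem key {m p : ℝ} (hm : 0 < m) (hp : m ≤ p) :
    Real.pi * (p - m) - E m p m ≤ 2 * (p - m) * Real.arctan ((p + m) / (2 * m)) := by
  have hp0 : 0 < p := by linarith
  have hJ : ∀ r : ℝ, HasDerivAt (fun r : ℝ => r * Real.arctan (r / m) -
      m / 2 * Real.log (r ^ 2 + m ^ 2)) (Real.arctan (r / m)) r := by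
    intro r
    have g : 0 < r ^ 2 + m ^ 2 := by positivity
    have h1 := (arc_deriv hm r).div_const (2 * m)
    have h2 : HasDerivAt (fun r : ℝ => Real.arctan (r / m)) (m / (r ^ 2 + m ^ 2)) r := by
      have e1 : (fun r : ℝ => 2 * m * Real.arctan (r / m) / (2 * m)) =
          fun r : ℝ => Real.arctan (r / m) := by
        funext r
        field_simp
      rw [e1] at h1
      refine h1.congr_deriv ?_
      field_simp
    have h3 := ((hasDerivAt_id r).mul h2).sub ((log_deriv g).const_mul (m / 2))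
    have h4 : HasDerivAt (fun r : ℝ => r * Real.arctan (r / m) -
      m / 2 * Real.log (r ^ 2 + m ^ 2)) (1 * Real.arctan (r / m) + r * (m / (r ^ 2 + m ^ 2)) -
        m / 2 * (2 * r / (r ^ 2 + m ^ 2))) r := h3
    convert h4 using 1
    field_simp
    ring
  have hc : Continuous (fun r : ℝ => Real.arctan (r / m)) := by fun_prop
  have h1 : ∫ r in m..p, Real.arctan (r / m) = (p * Real.arctan (p / m) -
      m / 2 * Real.log (p ^ 2 + m ^ 2)) - (m * Real.arctan (m / m) -
      m / 2 * Real.log (m ^ 2 + m ^ 2)) :=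
    intervalIntegral.integral_eq_sub_of_hasDerivAt (fun x _ => hJ x) (hc.intervalIntegrable _ _)
  obtain ⟨x0, hx0⟩ : ∃ x0 : ℝ, x0 = (p + m) / (2 * m) := ⟨_, rfl⟩
  have hx00 : 0 ≤ x0 := by rw [hx0]; positivity
  have h2 : ∫ r in m..p, Real.arctan (r / m) ≤
      ∫ r in m..p, (Real.arctan x0 + (r / m - x0) / (1 + x0 ^ 2)) := by
    apply intervalIntegral.integral_mono_on hp (hc.intervalIntegrable _ _)
    · apply Continuous.intervalIntegrable
      fun_prop
    · intro r hr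
      apply arctan_tangent _ hx00
      have : 0 < r := lt_of_lt_of_le hm hr.1
      positivity
  have h3 : ∫ r in m..p, (Real.arctan x0 + (r / m - x0) / (1 + x0 ^ 2)) =
      (p - m) * Real.arctan x0 := by
    have hd : ∀ r : ℝ, HasDerivAt (fun r : ℝ => r * Real.arctan x0 +
        (r ^ 2 / (2 * m) - r * x0) / (1 + x0 ^ 2))
        (Real.arctan x0 + (r / m - x0) / (1 + x0 ^ 2)) r := by
      intro r
      have a1 := (hasDerivAt_id r).mul_const (Real.arctan x0)
      have a2 := (((hasDerivAt_pow 2 r).div_const (2 * m)).sub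
        ((hasDerivAt_id r).mul_const x0)).div_const (1 + x0 ^ 2)
      have a3 := a1.add a2
      have a4 : HasDerivAt (fun r : ℝ => r * Real.arctan x0 +
        (r ^ 2 / (2 * m) - r * x0) / (1 + x0 ^ 2)) (1 * Real.arctan x0 +
          ((2 : ℕ) * r ^ (2 - 1) / (2 * m) - 1 * x0) / (1 + x0 ^ 2)) r := a3
      convert a4 using 1
      norm_num
      field_simp
    rw [intervalIntegral.integral_eq_sub_of_hasDerivAt (fun x _ => hd x)
      (Continuous.intervalIntegrable (by fun_prop) _ _)]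
    have : (p ^ 2 / (2 * m) - p * x0) = (m ^ 2 / (2 * m) - m * x0) := by
      rw [hx0]
      field_simp
      ring
    rw [this]
    ring
  have h4 : Real.arctan (m / p) = Real.pi / 2 - Real.arctan (p / m) := by
    have := Real.arctan_inv_of_pos (show 0 < p / m by positivity)
    rwa [inv_div] at this
  have h5 : Real.arctan (m / m) = Real.pi / 4 := by
    rw [div_self hm.ne', Real.arctan_one]
  rw [← hx0]
  unfold E
  rw [h4]
  rw [h1, h5] at h2
  rw [h5]
  have e1 : m ^ 2 + p ^ 2 = p ^ 2 + m ^ 2 := by ring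
  rw [e1]
  nlinarith

theorem partA {S s : ℝ} (hS : 0 ≤ S) (hSs : S ≤ s) (hs : 0 < s) :
    IntegrableOn (fun ξ => N (0, S) (ξ, s)) (Iic (S - s)) ∧
      ∫ ξ in Iic (S - s), N (0, S) (ξ, s) ≤ 1 / 4 * (1 + S / s) := by
  have hpi := Real.pi_pos
  have e0 : S - s = -(s - S) := by ring
  rw [e0]
  rcases hS.eq_or_lt with rfl | hS
  · obtain ⟨h1, h2⟩ := N_half0 (a := s) hs
    obtain ⟨h3, h4⟩ := flip h1
    rw [sub_zero]
    refine ⟨h3, ?_⟩
    rw [h4, h2, div_self hs.ne', Real.arctan_one]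
    apply le_of_eq
    field_simp
    norm_num
  · obtain ⟨h1, h2⟩ := N_half hS hs (show 0 ≤ s - S by linarith)
    obtain ⟨h3, h4⟩ := flip h1
    refine ⟨h3, ?_⟩
    rw [h4, h2, abs_of_nonneg (show 0 ≤ s - S by linarith)]
    rcases hSs.eq_or_lt with rfl | hlt
    · have : E (S - S) (S + S) (S - S) = 0 := by simp [E]
      rw [this]
      apply le_of_eq
      field_simp
      norm_num
    · have h5 := key (show 0 < s - S by linarith) (show s - S ≤ s + S by linarith)
      have e1 : (s + S + (s - S)) / (2 * (s - S)) = s / (s - S) := by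
        have : s - S ≠ 0 := by
          intro h; linarith
        field_simp
        ring
      have e2 : s + S - (s - S) = 2 * S := by ring
      rw [e1, e2] at h5
      rw [e2]
      have h6 : Real.arctan (s / (s - S)) ≤ Real.pi / 4 * (1 + S / s) := by
        have a1 := Real.arctan_inv_of_pos (show 0 < (s - S) / s by
          have : 0 < s - S := by linarith
          positivity)
        rw [inv_div] at a1
        rw [a1]
        have a2 := arctan_chord (w := (s - S) / s) (by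
          have : 0 < s - S := by linarith
          positivity) (by
          rw [div_le_one hs]
          linarith)
        have a3 : (s - S) / s = 1 - S / s := by field_simp
        rw [a3] at a2 ⊢
        nlinarith
      calc 1 / (4 * Real.pi * S) * (Real.pi * (2 * S) - E (s - S) (s + S) (s - S)) ≤
          1 / (4 * Real.pi * S) * (2 * (2 * S) * (Real.pi / 4 * (1 + S / s))) := by
            gcongr
            exact h5.trans (by gcongr)
        _ = 1 / 4 * (1 + S / s) := by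
            field_simp
            norm_num

theorem E_zero (m p : ℝ) : E m p 0 = 0 := by simp [E]

theorem half_full {S s : ℝ} (hs : 0 < s) (hsS : s < S) :
    IntegrableOn (fun ξ => N (0, S) (ξ, s)) (Ioi 0) ∧
      ∫ ξ in Ioi 0, N (0, S) (ξ, s) = s / (2 * S) := by
  have hS : 0 < S := by linarith
  have hpi := Real.pi_pos
  obtain ⟨h1, h2⟩ := N_half hS hs (le_refl 0)
  refine ⟨h1, ?_⟩
  rw [h2, E_zero, abs_of_neg (show s - S < 0 by linarith)]
  field_simp
  ring

theorem partB {S s : ℝ} (hs : 0 < s) (hsS : s < S) :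
    IntegrableOn (fun ξ => N (0, S) (ξ, s)) (Iic (S - s)) ∧
    ∫ ξ in Iic (S - s), N (0, S) (ξ, s) ≤
      s / (2 * S) + (S - s) / (2 * Real.pi * S) * Real.log ((S + s) / (S - s)) := by
  have hS : 0 < S := by linarith
  have hm : 0 < S - s := by linarith
  have hpi := Real.pi_pos
  obtain ⟨h1, h2⟩ := half_full hs hsS
  obtain ⟨h3, h4⟩ := flip h1
  rw [neg_zero] at h3 h4
  have h5 : IntegrableOn (fun ξ => N (0, S) (ξ, s)) (Ioc 0 (S - s)) :=
    h1.mono_set Ioc_subset_Ioi_self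
  have h6 : Iic (S - s) = Iic 0 ∪ Ioc 0 (S - s) := (Iic_union_Ioc_eq_Iic hm.le).symm
  have h7 : Disjoint (Iic (0 : ℝ)) (Ioc 0 (S - s)) := by
    rw [Set.disjoint_left]
    intro x hx hx'
    exact absurd hx'.1 (not_lt.mpr hx)
  rw [h6]
  refine ⟨h3.union h5, ?_⟩
  rw [setIntegral_union h7 measurableSet_Ioc h3 h5, h4, h2]
  have h8 : ∫ ξ in Ioc 0 (S - s), N (0, S) (ξ, s) ≤
      ∫ ξ in Ioc 0 (S - s), (1 / (2 * Real.pi * S) * Real.log ((S + s) / (S - s))) := by
    apply setIntegral_mono_on h5 _ measurableSet_Ioc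
    · intro ξ hξ
      rw [N_form hS hs (Or.inl hξ.1.ne'), sq_abs]
      have g1 : 0 < ξ := hξ.1
      have a1 : Real.log (ξ ^ 2 + (s + S) ^ 2) - Real.log (ξ ^ 2 + (s - S) ^ 2) ≤
          2 * Real.log ((S + s) / (S - s)) := by
        have a2 : 2 * Real.log ((S + s) / (S - s)) = Real.log (((S + s) / (S - s)) ^ 2) := by
          rw [Real.log_pow]
          norm_num
        rw [a2, ← Real.log_div (by positivity) (by positivity)]
        apply Real.log_le_log (by positivity)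
        rw [div_pow, div_le_div_iff₀ (by positivity) (by positivity)]
        have a3 : 0 ≤ ξ ^ 2 * ((S + s) ^ 2 - (S - s) ^ 2) := by
          have : (S + s) ^ 2 - (S - s) ^ 2 = 4 * S * s := by ring
          rw [this]
          positivity
        nlinarith
      calc 1 / (4 * Real.pi * S) * (Real.log (ξ ^ 2 + (s + S) ^ 2) - Real.log (ξ ^ 2 + (s - S) ^ 2))
          ≤ 1 / (4 * Real.pi * S) * (2 * Real.log ((S + s) / (S - s))) := by gcongr
        _ = 1 / (2 * Real.pi * S) * Real.log ((S + s) / (S - s)) := by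
            field_simp
            norm_num
    · exact integrableOn_const (by simp) (by exact enorm_ne_top)
  have h9 : ∫ ξ in Ioc 0 (S - s), (1 / (2 * Real.pi * S) * Real.log ((S + s) / (S - s))) =
      (S - s) / (2 * Real.pi * S) * Real.log ((S + s) / (S - s)) := by
    rw [setIntegral_const]
    simp only [Measure.real, Real.volume_Ioc, sub_zero, ENNReal.toReal_ofReal hm.le, smul_eq_mul]
    ring
  linarith

theorem tail_int {s b : ℝ} (hs : 0 < s) (hb : 0 < b) :
    IntegrableOn (fun ξ : ℝ => s / (Real.pi * ξ ^ 2)) (Ioi b) ∧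
    ∫ ξ in Ioi b, s / (Real.pi * ξ ^ 2) = s / Real.pi * (1 / b) := by
  have hpi := Real.pi_pos
  have h1 : ∀ x ∈ Ici b, HasDerivAt (fun ξ : ℝ => -(s / Real.pi) * ξ⁻¹) (s / (Real.pi * x ^ 2)) x := by
    intro x hx
    have hx0 : 0 < x := lt_of_lt_of_le hb hx
    have := (hasDerivAt_inv hx0.ne').const_mul (-(s / Real.pi))
    refine this.congr_deriv ?_
    field_simp
  have h2 : ∀ x ∈ Ioi b, 0 ≤ s / (Real.pi * x ^ 2) := by
    intro x hx
    positivity
  have h3 : Tendsto (fun ξ : ℝ => -(s / Real.pi) * ξ⁻¹) atTop (𝓝 0) := by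
    have := (tendsto_inv_atTop_zero (𝕜 := ℝ)).const_mul (-(s / Real.pi))
    rwa [mul_zero] at this
  refine ⟨integrableOn_Ioi_deriv_of_nonneg' h1 h2 h3, ?_⟩
  rw [integral_Ioi_of_hasDerivAt_of_nonneg' h1 h2 h3]
  field_simp
  ring

theorem half_lower (hK1 : StK1) {s b : ℝ} (hs : 0 < s) (hs1 : s < 1) (hb : 0 < b) :
    IntervalIntegrable (fun ξ => N (0, 1) (ξ, s)) volume 0 b ∧
    s / 2 - s / Real.pi * (1 / b) ≤ ∫ ξ in (0 : ℝ)..b, N (0, 1) (ξ, s) := by
  obtain ⟨h1, h2⟩ := half_full hs hs1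
  have h3 : IntegrableOn (fun ξ => N (0, 1) (ξ, s)) (Ioc 0 b) := h1.mono_set Ioc_subset_Ioi_self
  have h4 : IntegrableOn (fun ξ => N (0, 1) (ξ, s)) (Ioi b) := h1.mono_set (Ioi_subset_Ioi hb.le)
  refine ⟨(intervalIntegrable_iff_integrableOn_Ioc_of_le hb.le).mpr h3, ?_⟩
  rw [intervalIntegral.integral_of_le hb.le]
  have h5 : Disjoint (Ioc 0 b) (Ioi b) := by
    rw [Set.disjoint_left]
    intro x hx hx'
    exact absurd hx' (not_lt.mpr hx.2)
  have h6 := setIntegral_union h5 measurableSet_Ioi h3 h4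
  rw [Ioc_union_Ioi_eq_Ioi hb.le, h2] at h6
  obtain ⟨t1, t2⟩ := tail_int hs hb
  have h7 : ∫ ξ in Ioi b, N (0, 1) (ξ, s) ≤ s / Real.pi * (1 / b) := by
    rw [← t2]
    apply setIntegral_mono_on h4 t1 measurableSet_Ioi
    intro ξ hξ
    have hξ0 : 0 < ξ := lt_trans hb hξ
    have hne : ((0, 1) : ℝ × ℝ) ≠ (ξ, s) := by
      intro h
      have := congrArg Prod.fst h
      simp at this
      linarith
    refine ((hK1 (0, 1) (ξ, s) zero_le_one hs hne).2.2.1).trans ?_
    simp only [zero_sub, neg_sq]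
    have hpi := Real.pi_pos
    have : ξ ^ 2 ≤ ξ ^ 2 + (1 - s) ^ 2 := by nlinarith [sq_nonneg (1 - s)]
    gcongr
  have h8 : s / (2 * 1) = s / 2 := by ring
  rw [h8] at h6
  linarith

theorem half_lower' (hK1 : StK1) {s b : ℝ} (hs : 0 < s) (hs1 : s < 1) (hb : 0 < b) :
    IntervalIntegrable (fun ξ => N (0, 1) (ξ, s)) volume (-b) 0 ∧
    s / 2 - s / Real.pi * (1 / b) ≤ ∫ ξ in (-b)..0, N (0, 1) (ξ, s) := by
  obtain ⟨h1, h2⟩ := half_lower hK1 hs hs1 hb
  obtain ⟨h3, -⟩ := half_full hs hs1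
  obtain ⟨h4, -⟩ := flip h3
  rw [neg_zero] at h4
  refine ⟨(intervalIntegrable_iff_integrableOn_Ioc_of_le (by linarith)).mpr
    (h4.mono_set Ioc_subset_Iic_self), ?_⟩
  have h5 := intervalIntegral.integral_comp_neg (a := -b) (b := 0) (fun ξ => N (0, 1) (ξ, s))
  simp only [N_even, neg_zero, neg_neg] at h5
  rw [h5]
  exact h2

end VD.M_R2

namespace VD

open M_R2 in
/-- row integrals of the kernel -/
theorem mR2 (hK1 : StK1) : StR2 := by
  refine ⟨fun S s hS hSs hs => partA hS hSs hs, fun S s hs hsS => partB hs hsS, ?_, ?_⟩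
  · intro s hs hs1 a b ha hb
    obtain ⟨h1, h2⟩ := half_lower hK1 hs hs1 ha
    obtain ⟨h3, h4⟩ := half_lower' hK1 hs hs1 hb
    rw [← intervalIntegral.integral_add_adjacent_intervals h3 h1]
    have : s - s / Real.pi * (1 / a + 1 / b) =
        (s / 2 - s / Real.pi * (1 / b)) + (s / 2 - s / Real.pi * (1 / a)) := by ring
    rw [this]
    linarith
  · intro s hs hs1 b hb
    exact (half_lower' hK1 hs hs1 hb).2

end VD
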