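import Pool.Agent.Helper50.VD.St

/-!
# MP_22dedb_an, module T3a: cell bound, tall case
-/

open MeasureTheory Set Filter Topology
open scoped ENNReal

noncomputable section

namespace VD.M_T3a

theorem fF_scale {c : ℝ} (hc : 0 < c) (n x M m : ℝ) :
    c ^ 2 * fF (c ^ 2 * n) (c * x) (c ^ 2 * M) (c * m) = fF n x M m := by
  unfold fF
  have e1 : c ^ 2 * n + c ^ 2 * M - 2 * (c * x) * (c * m) = c ^ 2 * (n + M - 2 * x * m) := by ring
  have e2 : c ^ 2 * n + c ^ 2 * M + 2 * (c * x) * (c * m) = c ^ 2 * (n + M + 2 * x * m) := by ring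
  have hc2 : c ^ 2 ≠ 0 := by positivity
  rw [e1, e2, mul_add, mul_one_div, mul_one_div]
  congr 1
  · rw [div_mul_eq_div_div, div_self hc2]
  · rw [div_mul_eq_div_div, div_self hc2]

theorem sum_lower (hK1 : StK1) {p y : ℝ × ℝ} (h1 : 0 ≤ p.1) (h2 : 0 ≤ p.2) (hy1 : 0 < y.1)
    (hy2 : 0 < y.2) (hne : p ≠ y) :
    y.2 / Real.pi * (fF (p.1 ^ 2 + p.2 ^ 2) p.1 (y.1 ^ 2 + y.2 ^ 2) y.1 +
      (p.2 * y.2) ^ 2 * fF (p.1 ^ 2 + p.2 ^ 2) p.1 (y.1 ^ 2 + y.2 ^ 2) y.1 ^ 3 / 3) ≤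
      N p y + N p (-y.1, y.2) := by
  have hpi := Real.pi_pos
  have hne2 : p ≠ (-y.1, y.2) := by
    intro h
    rw [h] at h1
    simp only at h1
    linarith
  have a1 := (hK1 p y h2 hy2 hne).2.2.2.2
  have a2 := (hK1 p (-y.1, y.2) h2 hy2 hne2).2.2.2.2
  simp only at a2
  have g1 : 0 < (p.1 - y.1) ^ 2 + p.2 ^ 2 + y.2 ^ 2 := by positivity
  have g2 : 0 < (p.1 - -y.1) ^ 2 + p.2 ^ 2 + y.2 ^ 2 := by positivity
  obtain ⟨a, ha⟩ : ∃ a : ℝ, a = 1 / ((p.1 - y.1) ^ 2 + p.2 ^ 2 + y.2 ^ 2) := ⟨_, rfl⟩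
  obtain ⟨b, hb⟩ : ∃ b : ℝ, b = 1 / ((p.1 - -y.1) ^ 2 + p.2 ^ 2 + y.2 ^ 2) := ⟨_, rfl⟩
  have ha0 : 0 < a := by rw [ha]; positivity
  have hb0 : 0 < b := by rw [hb]; positivity
  have e1 : fF (p.1 ^ 2 + p.2 ^ 2) p.1 (y.1 ^ 2 + y.2 ^ 2) y.1 = a + b := by
    unfold fF
    rw [ha, hb]
    congr 2 <;> ring
  have e2 : (2 * p.2 * y.2) ^ 2 / (3 * ((p.1 - y.1) ^ 2 + p.2 ^ 2 + y.2 ^ 2) ^ 3) =
      4 / 3 * (p.2 * y.2) ^ 2 * a ^ 3 := by
    rw [ha]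
    field_simp
    ring
  have e3 : (2 * p.2 * y.2) ^ 2 / (3 * ((p.1 - -y.1) ^ 2 + p.2 ^ 2 + y.2 ^ 2) ^ 3) =
      4 / 3 * (p.2 * y.2) ^ 2 * b ^ 3 := by
    rw [hb]
    field_simp
    ring
  rw [e2, ← ha] at a1
  rw [e3, ← hb] at a2
  rw [e1]
  have h3 : (a + b) ^ 3 ≤ 4 * (a ^ 3 + b ^ 3) := by
    nlinarith [mul_nonneg (add_pos ha0 hb0).le (sq_nonneg (a - b))]
  have h4 : 0 ≤ (p.2 * y.2) ^ 2 := by positivity
  have h5 : a + b + (p.2 * y.2) ^ 2 * (a + b) ^ 3 / 3 ≤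
      (a + 4 / 3 * (p.2 * y.2) ^ 2 * a ^ 3) + (b + 4 / 3 * (p.2 * y.2) ^ 2 * b ^ 3) := by
    nlinarith [mul_le_mul_of_nonneg_left h3 h4]
  have h6 : 0 < y.2 / Real.pi := by positivity
  have h7 := mul_le_mul_of_nonneg_left h5 h6.le
  rw [mul_add (y.2 / Real.pi) (a + _)] at h7
  linarith

theorem corr_le (f zy : ℕ) :
    (corr f zy : ℝ) ≤ f + (zy : ℝ) ^ 2 * (f : ℝ) ^ 3 / (3 * 10 ^ 60) := by
  have e : corr f zy = f + f * (zy * f / 1000000000000000000000) *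
      (zy * f / 1000000000000000000000) / 3000000000000000000 := rfl
  rw [e]
  push_cast
  have h1 : ((zy * f / 1000000000000000000000 : ℕ) : ℝ) ≤
      (zy : ℝ) * f / 1000000000000000000000 := by
    refine (Nat.cast_div_le).trans ?_
    push_cast
    exact le_rfl
  have h2 : ((f * (zy * f / 1000000000000000000000) *
      (zy * f / 1000000000000000000000) / 3000000000000000000 : ℕ) : ℝ) ≤
      (f : ℝ) * ((zy : ℝ) * f / 1000000000000000000000) *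
        ((zy : ℝ) * f / 1000000000000000000000) / 3000000000000000000 := by
    refine (Nat.cast_div_le).trans ?_
    push_cast
    gcongr
  have h3 : (f : ℝ) * ((zy : ℝ) * f / 1000000000000000000000) *
        ((zy : ℝ) * f / 1000000000000000000000) / 3000000000000000000 =
      (zy : ℝ) ^ 2 * (f : ℝ) ^ 3 / (3 * 10 ^ 60) := by
    ring
  rw [h3] at h2
  linarith

end VD.M_T3a

namespace VD

open M_T3a in
/-- cell bound, tall case -/
theorem mT3a (hK1 : StK1) (hW1 : StW1) (hA2 : StA2) (hA3 : StA3) (hT4 : StT4) (hP0 : StP0) :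
    StT3a := by
  intro R1 hR1 hR1' hn01 ax ay bx by' s0 s1 hs hab hba hs0 hay hbx y hy
  have hpi := Real.pi_pos
  obtain ⟨s, t, hs', ht', hst0, hst1, hy1, hy2⟩ := hy
  simp only at hy1 hy2
  have hst : 0 < s + t := by linarith
  have hbx' : (0 : ℝ) < bx := by exact_mod_cast hbx
  have hay' : (0 : ℝ) < ay := by exact_mod_cast hay
  have hy10 : 0 < y.1 := by rw [hy1]; positivity
  have hy20 : 0 < y.2 := by rw [hy2]; positivity
  -- scaled coordinates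
  obtain ⟨σ, hσ⟩ : ∃ σ : ℝ, σ = 10000 * (s + t) := ⟨_, rfl⟩
  obtain ⟨u, hu⟩ : ∃ u : ℝ, u = t / (s + t) := ⟨_, rfl⟩
  have hu0 : 0 < u := by rw [hu]; positivity
  have hu1 : u < 1 := by rw [hu, div_lt_one hst]; linarith
  have hσ0 : (s0 : ℝ) ≤ σ := by rw [hσ]; linarith
  have hσ1 : σ ≤ s1 := by rw [hσ]; linarith
  have hσ00 : 0 ≤ σ := (Nat.cast_nonneg s0).trans hσ0
  have hσu : σ * u = 10000 * t := by rw [hσ, hu]; field_simp
  have hY1 : σ * ((1 - u) * ax + u * bx) = 80000 * y.1 := by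
    have : σ * ((1 - u) * ax + u * bx) = σ * ax - (σ * u) * ax + (σ * u) * bx := by ring
    rw [this, hσu, hσ, hy1]
    ring
  have hY2 : σ * ((1 - u) * ay + u * by') = 80000 * y.2 := by
    have : σ * ((1 - u) * ay + u * by') = σ * ay - (σ * u) * ay + (σ * u) * by' := by ring
    rw [this, hσu, hσ, hy2]
    ring
  have hT4' : ∀ z n : ℕ, z ^ 2 ≤ n → (fc2 z n ax ay bx by' s0 s1 : ℝ) ≤
      10 ^ 30 * fF n z (80000 ^ 2 * (y.1 ^ 2 + y.2 ^ 2)) (80000 * y.1) := by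
    intro z n hzn
    have := hT4 z n ax ay bx by' s0 s1 hzn hs hab hba hs0 hay σ u hσ0 hσ1 hu0 hu1
    rw [hY1, hY2] at this
    have e : (80000 * y.1) ^ 2 + (80000 * y.2) ^ 2 = 80000 ^ 2 * (y.1 ^ 2 + y.2 ^ 2) := by ring
    rwa [e] at this
  obtain ⟨hA2a, hA2b, hA2c, hA2d⟩ := hA2 R1 hR1 hR1' hn01
  obtain ⟨T, hT⟩ : ∃ T : PtsT, T = mkT R1 := ⟨_, rfl⟩
  have hTx : T.xT = 8 * R1 * 6475 := by rw [hT]; rfl
  have hTy : T.yT = 8 * R1 * 3887 := by rw [hT]; rfl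
  rw [← hT] at hA2a hA2b hA2c hA2d hn01 ⊢
  have hR10 : (1 : ℝ) ≤ R1 := by exact_mod_cast hR1
  have hTx' : (T.xT : ℝ) = 8 * R1 * 6475 := by rw [hTx]; push_cast; ring
  have hTy' : (T.yT : ℝ) = 8 * R1 * 3887 := by rw [hTy]; push_cast; ring
  have hTx0 : (0 : ℝ) < T.xT := by rw [hTx']; positivity
  have hTy0 : (0 : ℝ) < T.yT := by rw [hTy']; positivity
  have hm0 : (0 : ℝ) ≤ 80000 * y.1 := by positivity
  have hmM : (80000 * y.1) ^ 2 < 80000 ^ 2 * (y.1 ^ 2 + y.2 ^ 2) := by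
    have : 0 < y.2 ^ 2 := by positivity
    linarith
  have hcell : cellT T ax ay bx by' s0 s1 =
      min (corr (min (fc2 0 T.n0 ax ay bx by' s0 s1) (fc2 T.xT T.n1 ax ay bx by' s0 s1))
        (T.zl * (s0 * by')))
      (min (fc2 0 (T.yT * T.yT) ax ay bx by' s0 s1)
        (fc2 T.xT (T.xT * T.xT) ax ay bx by' s0 s1)) := by
    unfold cellT
    simp only [mn_eq]
    rfl
  constructor
  · intro p hp1 hp2 hgp hpx hne
    have hW := hW1 T.n0 0 T.n1 T.xT (80000 ^ 2 * (p.1 ^ 2 + p.2 ^ 2)) (80000 * p.1)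
      (80000 ^ 2 * (y.1 ^ 2 + y.2 ^ 2)) (80000 * y.1) le_rfl (by positivity) hpx hTx0 hm0 hmM
      (by simp) (by exact_mod_cast hA2b) (by exact_mod_cast hn01)
      (by
        have : (T.n1 : ℝ) ≤ T.n0 + (T.xT : ℝ) ^ 2 := by exact_mod_cast hA2a
        linarith)
      (by
        have := sq_nonneg p.2
        linarith)
      (by
        have := hA2c p hp1 hp2 hgp.le hpx
        linarith)
    obtain ⟨F, hF⟩ : ∃ F : ℝ, F = fF (80000 ^ 2 * (p.1 ^ 2 + p.2 ^ 2)) (80000 * p.1)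
      (80000 ^ 2 * (y.1 ^ 2 + y.2 ^ 2)) (80000 * y.1) := ⟨_, rfl⟩
    rw [← hF] at hW
    obtain ⟨c0, hc0⟩ : ∃ c0 : ℕ, c0 = min (fc2 0 T.n0 ax ay bx by' s0 s1)
      (fc2 T.xT T.n1 ax ay bx by' s0 s1) := ⟨_, rfl⟩
    have hc0F : (c0 : ℝ) ≤ 10 ^ 30 * F := by
      have b1 := hT4' 0 T.n0 (by simp)
      have b2 := hT4' T.xT T.n1 hA2b
      rw [Nat.cast_zero] at b1
      have b3 : (c0 : ℝ) ≤ (fc2 0 T.n0 ax ay bx by' s0 s1 : ℝ) := by
        rw [hc0]; exact_mod_cast min_le_left _ _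
      have b4 : (c0 : ℝ) ≤ (fc2 T.xT T.n1 ax ay bx by' s0 s1 : ℝ) := by
        rw [hc0]; exact_mod_cast min_le_right _ _
      rcases min_le_iff.mp hW with h | h
      · linarith
      · linarith
    have hF0 : 0 ≤ F := by
      have : (0 : ℝ) ≤ c0 := Nat.cast_nonneg _
      by_contra hc
      push Not at hc
      linarith
    have hzy : ((T.zl * (s0 * by') : ℕ) : ℝ) ≤ 80000 ^ 2 * (p.2 * y.2) := by
      push_cast
      have b1 := hA2d p hp1 hp2 hgp hpx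
      have b2 : (s0 : ℝ) * by' ≤ 80000 * y.2 := by
        rw [← hY2]
        have b3 : (by' : ℝ) ≤ ay := by exact_mod_cast hba
        have b4 : (by' : ℝ) ≤ (1 - u) * ay + u * by' := by nlinarith
        gcongr
      have b5 : 0 ≤ 80000 * p.2 := by positivity
      calc (T.zl : ℝ) * (s0 * by') ≤ (80000 * p.2) * (80000 * y.2) := by gcongr
        _ = 80000 ^ 2 * (p.2 * y.2) := by ring
    have hcorr := corr_le c0 (T.zl * (s0 * by'))
    have hcellp : (cellT T ax ay bx by' s0 s1 : ℝ) ≤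
        10 ^ 30 * (F + (80000 ^ 2 * (p.2 * y.2)) ^ 2 * F ^ 3 / 3) := by
      have b1 : (cellT T ax ay bx by' s0 s1 : ℝ) ≤ (corr c0 (T.zl * (s0 * by')) : ℝ) := by
        rw [hcell, hc0]
        exact_mod_cast min_le_left _ _
      have b2 : ((T.zl * (s0 * by') : ℕ) : ℝ) ^ 2 * (c0 : ℝ) ^ 3 ≤
          (80000 ^ 2 * (p.2 * y.2)) ^ 2 * (10 ^ 30 * F) ^ 3 := by
        gcongr
      have b3 : ((T.zl * (s0 * by') : ℕ) : ℝ) ^ 2 * (c0 : ℝ) ^ 3 / (3 * 10 ^ 60) ≤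
          (80000 ^ 2 * (p.2 * y.2)) ^ 2 * (10 ^ 30 * F) ^ 3 / (3 * 10 ^ 60) := by
        gcongr
      have b4 : (80000 ^ 2 * (p.2 * y.2)) ^ 2 * (10 ^ 30 * F) ^ 3 / (3 * 10 ^ 60) =
          10 ^ 30 * ((80000 ^ 2 * (p.2 * y.2)) ^ 2 * F ^ 3 / 3) := by
        ring
      rw [b4] at b3
      rw [mul_add]
      linarith
    have hfin := sum_lower hK1 hp1 hp2 hy10 hy20 hne
    have hsc := fF_scale (show (0 : ℝ) < 80000 by norm_num) (p.1 ^ 2 + p.2 ^ 2) p.1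
      (y.1 ^ 2 + y.2 ^ 2) y.1
    rw [← hF] at hsc
    rw [← hsc] at hfin
    refine le_trans ?_ hfin
    calc y.2 * ((cellT T ax ay bx by' s0 s1 : ℝ) * 80000 ^ 2 / (Real.pi * 10 ^ 30)) ≤
        y.2 * ((10 ^ 30 * (F + (80000 ^ 2 * (p.2 * y.2)) ^ 2 * F ^ 3 / 3)) * 80000 ^ 2 /
          (Real.pi * 10 ^ 30)) := by gcongr
      _ = y.2 / Real.pi * (80000 ^ 2 * F + (p.2 * y.2) ^ 2 * (80000 ^ 2 * F) ^ 3 / 3) := by
          field_simp
  · intro q hq1 hq2 hgq hne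
    obtain ⟨r, hr⟩ : ∃ r : ℝ, r = R1 / 10000 := ⟨_, rfl⟩
    have hr0 : 0 < r := by rw [hr]; positivity
    rw [← hr] at hgq
    have hqx : 80000 * q.1 ≤ T.xT := by
      have b1 := (hP0.2.2.1 q hq2).2.1
      rw [abs_of_nonneg hq1] at b1
      rw [hTx']
      have : q.1 ≤ 6475 * r := b1.trans (by gcongr)
      rw [hr] at this
      linarith
    have hA := hA3 r q hr0 hq1 hq2 hgq
    have ex : (T.xT : ℝ) = 80000 * (6475 * r) := by rw [hTx', hr]; ring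
    have ey : (T.yT : ℝ) = 80000 * (3887 * r) := by rw [hTy', hr]; ring
    have hyx : (T.yT : ℝ) ≤ T.xT := by
      rw [ex, ey]
      linarith
    have hW := hW1 ((T.yT : ℝ) ^ 2) 0 ((T.xT : ℝ) ^ 2) T.xT (80000 ^ 2 * (q.1 ^ 2 + q.2 ^ 2))
      (80000 * q.1)
      (80000 ^ 2 * (y.1 ^ 2 + y.2 ^ 2)) (80000 * y.1) le_rfl (by positivity) hqx hTx0 hm0 hmM
      (by
        rw [zero_pow two_ne_zero]
        positivity) le_rfl (by gcongr)
      (by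
        have := sq_nonneg (T.yT : ℝ)
        linarith)
      (by
        have := sq_nonneg q.2
        linarith)
      (by
        rw [ex, ey]
        linarith [mul_le_mul_of_nonneg_left hA (show (0 : ℝ) ≤ 80000 ^ 4 by norm_num)])
    obtain ⟨F, hF⟩ : ∃ F : ℝ, F = fF (80000 ^ 2 * (q.1 ^ 2 + q.2 ^ 2)) (80000 * q.1)
      (80000 ^ 2 * (y.1 ^ 2 + y.2 ^ 2)) (80000 * y.1) := ⟨_, rfl⟩
    rw [← hF] at hW
    have hcq : (cellT T ax ay bx by' s0 s1 : ℝ) ≤ 10 ^ 30 * F := by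
      have b1 := hT4' 0 (T.yT * T.yT) (by simp)
      have b2 := hT4' T.xT (T.xT * T.xT) (by rw [sq])
      rw [Nat.cast_zero, show ((T.yT * T.yT : ℕ) : ℝ) = (T.yT : ℝ) ^ 2 by push_cast; ring] at b1
      rw [show ((T.xT * T.xT : ℕ) : ℝ) = (T.xT : ℝ) ^ 2 by push_cast; ring] at b2
      have b3 : (cellT T ax ay bx by' s0 s1 : ℝ) ≤
          (fc2 0 (T.yT * T.yT) ax ay bx by' s0 s1 : ℝ) := by
        rw [hcell]; exact_mod_cast (min_le_right _ _).trans (min_le_left _ _)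
      have b4 : (cellT T ax ay bx by' s0 s1 : ℝ) ≤
          (fc2 T.xT (T.xT * T.xT) ax ay bx by' s0 s1 : ℝ) := by
        rw [hcell]; exact_mod_cast (min_le_right _ _).trans (min_le_right _ _)
      rcases min_le_iff.mp hW with h | h
      · linarith
      · linarith
    have hF0 : 0 ≤ F := by
      have : (0 : ℝ) ≤ (cellT T ax ay bx by' s0 s1 : ℝ) := Nat.cast_nonneg _
      by_contra hc
      push Not at hc
      linarith
    have hfin := sum_lower hK1 hq1 hq2 hy10 hy20 hne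
    have hsc := fF_scale (show (0 : ℝ) < 80000 by norm_num) (q.1 ^ 2 + q.2 ^ 2) q.1
      (y.1 ^ 2 + y.2 ^ 2) y.1
    rw [← hF] at hsc
    rw [← hsc] at hfin
    refine le_trans ?_ hfin
    calc y.2 * ((cellT T ax ay bx by' s0 s1 : ℝ) * 80000 ^ 2 / (Real.pi * 10 ^ 30)) ≤
        y.2 * ((10 ^ 30 * F) * 80000 ^ 2 / (Real.pi * 10 ^ 30)) := by gcongr
      _ = y.2 / Real.pi * (80000 ^ 2 * F) := by
          field_simp
      _ ≤ y.2 / Real.pi * (80000 ^ 2 * F + (q.2 * y.2) ^ 2 * (80000 ^ 2 * F) ^ 3 / 3) := by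
          have : 0 ≤ (q.2 * y.2) ^ 2 * (80000 ^ 2 * F) ^ 3 / 3 := by positivity
          gcongr
          linarith

end VD
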